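import Mathlib
import Pool.Agent.NPC.Dec
import Pool.Agent.Zk93.StackTime

/-!
# Few isomorphism types do not bound the complexity of isomorphism testing

The assertion of Q1 is false (unconditionally). Let `K` be the class of all finite structures with
two constants, and let `J` be the class of the finite sets with a unary predicate which holds for at
most one element and not for all elements. Both have exactly `0, 1, 2, 2, 2, ...` isomorphism types
of size `0, 1, 2, 3, 4, ...`. The tables of a member of `K` with `n` elements are two numbers less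
than `n`, so that an isomorphism testing algorithm for `K`, which reads the whole input, needs time
polynomial in `log n`. An isomorphism testing algorithm for `J` needs time at least `n / c`.

The algorithms are the Turing machines (multi-stack machines) of Mathlib.
-/

set_option autoImplicit false

namespace Pool.Agent.Results.MP_28ce77_lc.TypesDoNotBoundTime

open Turing Pool.Agent.NPC FirstOrder

/-- A finite signature: the arities of its relation symbols and the arities of its function symbols
(constants are function symbols of arity `0`). -/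
structure Sig where
  /-- arities of the relation symbols -/
  rel : List ℕ
  /-- arities of the function symbols -/
  fn : List ℕ

/-- The first-order language of a signature. -/
def Sig.lang (σ : Sig) : FirstOrder.Language.{0, 0} where
  Functions k := {i : Fin σ.fn.length // σ.fn.get i = k}
  Relations k := {i : Fin σ.rel.length // σ.rel.get i = k}

/-- A structure of the signature `σ` with universe `{0, …, n - 1}`. -/
structure Str (σ : Sig) (n : ℕ) where
  /-- the interpretations of the relation symbols -/
  rel : (i : Fin σ.rel.length) → (Fin (σ.rel.get i) → Fin n) → Bool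
  /-- the interpretations of the function symbols -/
  fn : (i : Fin σ.fn.length) → (Fin (σ.fn.get i) → Fin n) → Fin n

variable {σ τ : Sig} {n : ℕ}

/-- The same structure as a structure in the sense of Mathlib's model theory. -/
@[reducible] def Str.toStructure (A : Str σ n) : σ.lang.Structure (Fin n) where
  funMap f x := A.fn f.1 (fun j => x (Fin.cast f.2 j))
  RelMap r x := A.rel r.1 (fun j => x (Fin.cast r.2 j)) = true

/-- `A` is a model of the first-order sentence `φ`. -/
def Str.Models (A : Str σ n) (φ : σ.lang.Sentence) : Prop :=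
  @FirstOrder.Language.Sentence.Realize σ.lang (Fin n) A.toStructure φ

/-- `A` and `B` are isomorphic. -/
def Str.Iso (A B : Str σ n) : Prop :=
  ∃ e : Fin n ≃ Fin n, (∀ i x, B.rel i (e ∘ x) = A.rel i x) ∧ ∀ i x, B.fn i (e ∘ x) = e (A.fn i x)

/-- The number of isomorphism types of `n`-element models of `φ`. -/
noncomputable def numTypes (φ : σ.lang.Sentence) (n : ℕ) : ℕ :=
  Nat.card (Quot fun A B : {A : Str σ n // A.Models φ} => A.1.Iso B.1)

/-- The full tables of the relations (bits) and functions (numbers, written in binary). -/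
def Str.tables (A : Str σ n) : List (List Bool) × List (List ℕ) :=
  (List.ofFn fun i => List.ofFn fun t : Fin (n ^ σ.rel.get i) =>
      A.rel i (finFunctionFinEquiv.symm t),
    List.ofFn fun i => List.ofFn fun t : Fin (n ^ σ.fn.get i) =>
      (A.fn i (finFunctionFinEquiv.symm t) : ℕ))

/-- The input: the number `n` (in binary) and the tables of two structures with universe
`{0, …, n - 1}`, as a bit string. -/
def code (A B : Str σ n) : List Bool := bits (n, A.tables, B.tables)

/-- The machine `M`, started with the bit string `x`, halts with output `y` after at most `t`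
steps. -/
def Runs (M : TM2ComputableAux Bool Bool) (x y : List Bool) (t : ℕ) : Prop :=
  Nonempty (TM2OutputsInTime M.tm (x.map M.inputAlphabet.invFun)
    (some (y.map M.outputAlphabet.invFun)) t)

open Classical in
/-- The machine `M` halts within `t` steps, with the correct answer to the question whether the two
structures are isomorphic, on all pairs of `n`-element models of `φ`. -/
def TestsWithin (φ : σ.lang.Sentence) (M : TM2ComputableAux Bool Bool) (n t : ℕ) : Prop :=
  ∀ A B : Str σ n, A.Models φ → B.Models φ → Runs M (code A B) [decide (A.Iso B)] t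

/-- `M` is an isomorphism testing algorithm for the class of the finite models of `φ`. -/
def IsTester (φ : σ.lang.Sentence) (M : TM2ComputableAux Bool Bool) : Prop :=
  ∀ n, ∃ t, TestsWithin φ M n t

/-- The largest number of steps used by the isomorphism testing algorithm `M` on a pair of
`n`-element models of `φ`. -/
noncomputable def maxSteps (φ : σ.lang.Sentence) (M : TM2ComputableAux Bool Bool) (n : ℕ) : ℕ :=
  sInf {t | TestsWithin φ M n t}

/-- The assertion of Q1: if `f_J(n) ≤ q(f_K(n))` for all `n`, with a polynomial `q`, for the classes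
`J`, `K` of the finite models of two first-order sentences, then there is a polynomial `p` such that
for each isomorphism testing algorithm `α` for `K` some isomorphism testing algorithm `β` for `J`
satisfies `m_J(β, n) ≤ p(m_K(α, n))` for all sufficiently large `n`. -/
def Assertion : Prop :=
  ∀ (σ τ : Sig) (J : σ.lang.Sentence) (K : τ.lang.Sentence) (q : Polynomial ℕ),
    (∀ n, numTypes J n ≤ q.eval (numTypes K n)) →
    ∃ p : Polynomial ℕ, ∀ α, IsTester K α → ∃ β, IsTester J β ∧
      ∃ N, ∀ n ≥ N, maxSteps J β n ≤ p.eval (maxSteps K α n)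

/-! ### The two classes -/

/-- One unary predicate. -/
def sJ : Sig := ⟨[1], []⟩

/-- Two constants. -/
def sK : Sig := ⟨[], [0, 0]⟩

/-- The unary predicate. -/
def P : sJ.lang.Relations 1 := ⟨⟨0, by decide⟩, rfl⟩

/-- The predicate does not hold for some element, and it holds for at most one element. -/
def phiJ : sJ.lang.Sentence :=
  (∃' ∼(P.boundedFormula₁ (&0))) ⊓
    (∀' ∀' ((P.boundedFormula₁ (&0) ⊓ P.boundedFormula₁ (&1)) ⟹ ((&0) =' (&1))))

/-- The class of all structures with two constants. -/
def phiK : sK.lang.Sentence := ⊤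

/-- The predicate as a Boolean function. -/
def pr (A : Str sJ n) (a : Fin n) : Bool := A.rel ⟨0, by decide⟩ (fun _ => a)

theorem models_J (A : Str sJ n) :
    A.Models phiJ ↔ (∃ a, pr A a = false) ∧ ∀ a b, pr A a = true → pr A b = true → a = b := by
  unfold Str.Models phiJ
  let _ := A.toStructure
  have key : ∀ x : Fin 1 → Fin n, FirstOrder.Language.Structure.RelMap P x ↔ pr A (x 0) = true := by
    intro x
    show A.rel _ _ = true ↔ _
    unfold pr
    have : (fun j => x (Fin.cast P.2 j)) = fun _ => x 0 := by
      funext j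
      congr 1
      have : (Fin.cast P.2 j : Fin 1) = 0 := Subsingleton.elim _ _
      exact this
    rw [this]
    rfl
  simp only [FirstOrder.Language.Sentence.Realize, FirstOrder.Language.Formula.Realize,
    FirstOrder.Language.BoundedFormula.realize_inf, FirstOrder.Language.BoundedFormula.realize_ex,
    FirstOrder.Language.BoundedFormula.realize_not, FirstOrder.Language.BoundedFormula.realize_all,
    FirstOrder.Language.BoundedFormula.realize_imp, FirstOrder.Language.BoundedFormula.realize_rel₁,
    FirstOrder.Language.BoundedFormula.realize_bdEqual, key]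
  simp [Fin.snoc]

theorem models_K (A : Str sK n) : A.Models phiK := by
  unfold Str.Models phiK
  let _ := A.toStructure
  exact FirstOrder.Language.BoundedFormula.realize_top.2 trivial

/-- The value of the first constant. -/
def c0 (A : Str sK n) : Fin n := A.fn ⟨0, by decide⟩ (fun i => i.elim0)

/-- The value of the second constant. -/
def c1 (A : Str sK n) : Fin n := A.fn ⟨1, by decide⟩ (fun i => i.elim0)

theorem iso_J_iff (A B : Str sJ n) :
    A.Iso B ↔ ∃ e : Fin n ≃ Fin n, ∀ a, pr B (e a) = pr A a := by
  constructor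
  · rintro ⟨e, he, -⟩
    exact ⟨e, fun a => he ⟨0, by decide⟩ (fun _ => a)⟩
  · rintro ⟨e, he⟩
    refine ⟨e, ?_, fun i => i.elim0⟩
    rintro ⟨i, hi⟩ x
    have hi0 : i = 0 := by simpa [sJ] using hi
    subst hi0
    have h1 : x = fun _ => x (0 : Fin 1) := by
      funext j
      congr 1
      exact Subsingleton.elim (α := Fin 1) _ _
    have h2 : (⇑e ∘ x) = fun _ => e (x (0 : Fin 1)) := by rw [h1]; rfl
    rw [h2]
    conv_rhs => rw [h1]
    exact he _

theorem iso_K_iff (A B : Str sK n) :
    A.Iso B ↔ ∃ e : Fin n ≃ Fin n, c0 B = e (c0 A) ∧ c1 B = e (c1 A) := by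
  have hx : ∀ (i : Fin 2) (x : Fin (sK.fn.get i) → Fin n) (y : Fin (sK.fn.get i) → Fin n),
      x = y := by
    intro i x y
    funext j
    exfalso
    fin_cases i <;> exact Fin.elim0 j
  constructor
  · rintro ⟨e, -, he⟩
    refine ⟨e, ?_, ?_⟩
    · unfold c0
      rw [← he]
      congr 1
      exact hx _ _ _
    · unfold c1
      rw [← he]
      congr 1
      exact hx _ _ _
  · rintro ⟨e, he0, he1⟩
    refine ⟨e, fun i => i.elim0, ?_⟩
    rintro i x
    change Fin 2 at i
    fin_cases i
    · rw [hx 0 (e ∘ x) (fun i => i.elim0), hx 0 x (fun i => i.elim0)]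
      exact he0
    · rw [hx 1 (e ∘ x) (fun i => i.elim0), hx 1 x (fun i => i.elim0)]
      exact he1

theorem iso_J_iff' {A B : Str sJ n} (hA : A.Models phiJ) (hB : B.Models phiJ) :
    A.Iso B ↔ ((∃ a, pr A a = true) ↔ ∃ a, pr B a = true) := by
  rw [iso_J_iff]
  rw [models_J] at hA hB
  constructor
  · rintro ⟨e, he⟩
    constructor
    · rintro ⟨a, ha⟩
      exact ⟨e a, by rw [he, ha]⟩
    · rintro ⟨b, hb⟩
      refine ⟨e.symm b, ?_⟩
      rw [← he, e.apply_symm_apply, hb]
  · intro h
    by_cases h1 : ∃ a, pr A a = true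
    · obtain ⟨b, hb⟩ := h.1 h1
      obtain ⟨a, ha⟩ := h1
      refine ⟨Equiv.swap a b, fun c => ?_⟩
      rw [Bool.eq_iff_iff]
      constructor
      · intro hc
        have h2 := hB.2 _ _ hc hb
        have h3 : c = a := by
          have := congrArg (Equiv.swap a b) h2
          simpa using this
        rw [h3, ha]
      · intro hc
        have h2 : c = a := hA.2 _ _ hc ha
        rw [h2, Equiv.swap_apply_left, hb]
    · have h2 : ¬ ∃ a, pr B a = true := fun h3 => h1 (h.2 h3)
      refine ⟨Equiv.refl _, fun c => ?_⟩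
      have h3 : pr A c = false := by
        by_contra h4
        exact h1 ⟨c, by simpa using h4⟩
      have h4 : pr B c = false := by
        by_contra h4
        exact h2 ⟨c, by simpa using h4⟩
      rw [h3]
      exact h4

theorem iso_K_iff' (A B : Str sK n) : A.Iso B ↔ (c0 A = c1 A ↔ c0 B = c1 B) := by
  rw [iso_K_iff]
  constructor
  · rintro ⟨e, h0, h1⟩
    rw [h0, h1, e.injective.eq_iff]
  · intro h
    by_cases hA : c0 A = c1 A
    · refine ⟨Equiv.swap (c0 A) (c0 B), ?_, ?_⟩
      · simp
      · rw [← hA, Equiv.swap_apply_left, h.1 hA]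
    · have hB : c0 B ≠ c1 B := fun h' => hA (h.2 h')
      refine ⟨(Equiv.swap (c0 A) (c0 B)).trans
        (Equiv.swap (Equiv.swap (c0 A) (c0 B) (c1 A)) (c1 B)), ?_, ?_⟩
      · rw [Equiv.trans_apply, Equiv.swap_apply_left, Equiv.swap_apply_of_ne_of_ne]
        · intro h'
          apply hA
          apply (Equiv.swap (c0 A) (c0 B)).injective
          rw [Equiv.swap_apply_left]
          exact h'
        · exact hB
      · rw [Equiv.trans_apply, Equiv.swap_apply_left]

/-! ### The number of isomorphism types -/

theorem card_quot {X : Type} (r : X → X → Prop) (f : X → Prop) (h : ∀ a b, r a b ↔ (f a ↔ f b)) :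
    Nat.card (Quot r) = Nat.card (Set.range f) := by
  have h' : ∀ a b, r a b ↔ f a = f b := fun a b => (h a b).trans propext_iff.symm
  let g : Quot r → Set.range f := Quot.lift (fun a => (⟨f a, Set.mem_range_self a⟩ : Set.range f))
    (fun a b hab => Subtype.ext ((h' a b).1 hab))
  have hg : Function.Bijective g := by
    constructor
    · rintro ⟨a⟩ ⟨b⟩ hab
      apply Quot.sound
      rw [h']
      exact congrArg Subtype.val hab
    · rintro ⟨-, a, rfl⟩
      exact ⟨Quot.mk r a, rfl⟩
  exact Nat.card_congr (Equiv.ofBijective g hg)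

/-- The structure for the class `J` in which the predicate holds exactly for the elements which
satisfy `b`. -/
def mkJ (b : Fin n → Bool) : Str sJ n where
  rel i x := if h : i = ⟨0, by decide⟩ then b (x (by subst h; exact (0 : Fin 1))) else false
  fn i := i.elim0

theorem pr_mkJ (b : Fin n → Bool) (a : Fin n) : pr (mkJ b) a = b a := by
  simp [pr, mkJ]

/-- The structure for the class `K` with given constants. -/
def mkK (a b : Fin n) : Str sK n where
  rel i := i.elim0
  fn i _ := if i = ⟨0, by decide⟩ then a else b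

theorem c0_mkK (a b : Fin n) : c0 (mkK a b) = a := by simp [c0, mkK]
theorem c1_mkK (a b : Fin n) : c1 (mkK a b) = b := by simp [c1, mkK]

theorem numTypes_eq (n : ℕ) : numTypes phiJ n = numTypes phiK n := by
  unfold numTypes
  rw [card_quot _ (fun A : {A : Str sJ n // A.Models phiJ} => ∃ a, pr A.1 a = true)
    (fun A B => iso_J_iff' A.2 B.2)]
  rw [card_quot _ (fun A : {A : Str sK n // A.Models phiK} => ¬ c0 A.1 = c1 A.1)
    (fun A B => by rw [iso_K_iff', not_iff_not])]
  congr 2
  ext p
  simp only [Set.mem_range, Subtype.exists]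
  constructor
  · rintro ⟨A, hA, rfl⟩
    have hA' := hA
    rw [models_J] at hA'
    obtain ⟨⟨a, ha⟩, -⟩ := hA'
    by_cases h : ∃ b, pr A b = true
    · obtain ⟨b, hb⟩ := h
      refine ⟨mkK a b, models_K _, ?_⟩
      rw [c0_mkK, c1_mkK]
      apply propext
      refine ⟨fun _ => ⟨b, hb⟩, fun _ hab => ?_⟩
      rw [hab, hb] at ha
      exact absurd ha (by simp)
    · refine ⟨mkK a a, models_K _, ?_⟩
      rw [c0_mkK, c1_mkK]
      apply propext
      exact ⟨fun h' => absurd rfl h', fun h' => absurd h' h⟩
  · rintro ⟨A, hA, rfl⟩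
    by_cases h : c0 A = c1 A
    · refine ⟨mkJ fun _ => false, ?_, ?_⟩
      · rw [models_J]
        exact ⟨⟨c0 A, by rw [pr_mkJ]⟩, fun a b ha => by simp [pr_mkJ] at ha⟩
      · apply propext
        constructor
        · rintro ⟨a, ha⟩
          simp [pr_mkJ] at ha
        · intro h'
          exact absurd h h'
    · refine ⟨mkJ fun a => decide (a = c0 A), ?_, ?_⟩
      · rw [models_J]
        refine ⟨⟨c1 A, ?_⟩, fun a b ha hb => ?_⟩
        · rw [pr_mkJ]; simp; exact fun h' => h h'.symm
        · rw [pr_mkJ] at ha hb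
          simp only [decide_eq_true_eq] at ha hb
          rw [ha, hb]
      · apply propext
        exact ⟨fun _ => h, fun _ => ⟨c0 A, by rw [pr_mkJ]; simp⟩⟩

/-! ### Running times -/

theorem Runs.mono {M : TM2ComputableAux Bool Bool} {x y : List Bool} {s t : ℕ}
    (h : Runs M x y s) (hst : s ≤ t) : Runs M x y t := by
  obtain ⟨⟨h1, h2⟩⟩ := h
  exact ⟨⟨h1, h2.trans hst⟩⟩

theorem TestsWithin.mono {φ : σ.lang.Sentence} {M : TM2ComputableAux Bool Bool} {n s t : ℕ}
    (h : TestsWithin φ M n s) (hst : s ≤ t) : TestsWithin φ M n t :=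
  fun A B hA hB => (h A B hA hB).mono hst

theorem maxSteps_spec {φ : σ.lang.Sentence} {M : TM2ComputableAux Bool Bool} (h : IsTester φ M)
    (n : ℕ) : TestsWithin φ M n (maxSteps φ M n) :=
  Nat.sInf_mem (s := {t | TestsWithin φ M n t}) (h n)

theorem maxSteps_le {φ : σ.lang.Sentence} {M : TM2ComputableAux Bool Bool} {n t : ℕ}
    (h : TestsWithin φ M n t) : maxSteps φ M n ≤ t :=
  Nat.sInf_le h

theorem length_code_J (A B : Str sJ n) : n ≤ (code A B).length := by
  have h1 : (code A B).length = sz (n, A.tables, B.tables) := bits_length _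
  rw [h1]
  have h2 : A.tables = ([List.ofFn fun t : Fin (n ^ 1) =>
    A.rel ⟨0, by decide⟩ (finFunctionFinEquiv.symm t)], []) := rfl
  rw [sz_pair, sz_pair, h2, sz_pair]
  have h3 : sz ([List.ofFn fun t : Fin (n ^ 1) =>
      A.rel ⟨0, by decide⟩ (finFunctionFinEquiv.symm t)] : List (List Bool)) >
      sz (List.ofFn fun t : Fin (n ^ 1) => A.rel ⟨0, by decide⟩ (finFunctionFinEquiv.symm t)) :=
    sz_le_of_mem (List.mem_singleton.2 rfl)
  have h4 := length_lt_sz (List.ofFn fun t : Fin (n ^ 1) =>
    A.rel ⟨0, by decide⟩ (finFunctionFinEquiv.symm t))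
  rw [List.length_ofFn] at h4
  have h5 : n ^ sJ.rel.get ⟨0, by decide⟩ = n := pow_one n
  have h6 : n < sz (List.ofFn fun t : Fin (n ^ 1) =>
    A.rel ⟨0, by decide⟩ (finFunctionFinEquiv.symm t)) := lt_of_eq_of_lt (pow_one n).symm h4
  omega

/-- Every isomorphism testing algorithm for `J` needs time at least `n / c`. -/
theorem slow_J (β : TM2ComputableAux Bool Bool) (h : IsTester phiJ β) :
    ∃ c, ∀ n, n ≤ c * (maxSteps phiJ β n + 1) := by
  obtain ⟨D, hD⟩ := Pool.Agent.Zk93.length_le_of_outputs β.tm
  refine ⟨D + 1, fun n => ?_⟩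
  rcases Nat.eq_zero_or_pos n with rfl | hn
  · simp
  let A : Str sJ n := mkJ fun _ => false
  have hA : A.Models phiJ := by
    rw [models_J]
    exact ⟨⟨⟨0, hn⟩, by rw [pr_mkJ]⟩, fun a b ha => by simp [A, pr_mkJ] at ha⟩
  obtain ⟨h1⟩ := maxSteps_spec h n A A hA hA
  have h2 := hD _ _ _ h1
  rw [List.length_map, List.length_map] at h2
  have h3 := length_code_J A A
  simp only [List.length_cons, List.length_nil] at h2
  nlinarith

theorem fin_val_size_le {n : ℕ} (a : Fin n) : sz (a : ℕ) ≤ 4 * n.size + 1 :=
  (sz_nat_le _).trans (by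
    have := Nat.size_le_size a.2.le
    omega)

theorem tables_K (A : Str sK n) : A.tables = ([], [ [(c0 A : ℕ)], [(c1 A : ℕ)] ]) := by
  have hx : ∀ (i : Fin 2) (x : Fin (sK.fn.get i) → Fin n) (y : Fin (sK.fn.get i) → Fin n),
      x = y := by
    intro i x y
    funext j
    exfalso
    fin_cases i <;> exact Fin.elim0 j
  have h2 : ∀ f : Fin (n ^ 0) → ℕ, List.ofFn f = [f ⟨0, by simp⟩] := by
    intro f
    exact List.ofFn_succ (n := 0) (f := f)
  have h1 : A.tables = ([], [List.ofFn fun t : Fin (n ^ 0) =>
      (A.fn (0 : Fin 2) (finFunctionFinEquiv.symm t) : ℕ),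
      List.ofFn fun t : Fin (n ^ 0) =>
      (A.fn (1 : Fin 2) (finFunctionFinEquiv.symm t) : ℕ)]) := rfl
  rw [h1, h2, h2]
  have e0 : ∀ x, A.fn (0 : Fin 2) x = c0 A := fun x => congrArg (A.fn (0 : Fin 2)) (hx 0 _ _)
  have e1 : ∀ x, A.fn (1 : Fin 2) x = c1 A := fun x => congrArg (A.fn (1 : Fin 2)) (hx 1 _ _)
  rw [e0, e1]

theorem length_code_K (A B : Str sK n) : (code A B).length ≤ 20 * n.size + 100 := by
  have h1 : (code A B).length = sz (n, A.tables, B.tables) := bits_length _
  rw [h1, tables_K, tables_K]
  have e1 := fin_val_size_le (c0 A)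
  have e2 := fin_val_size_le (c1 A)
  have e3 := fin_val_size_le (c0 B)
  have e4 := fin_val_size_le (c1 B)
  have e5 := sz_nat_le n
  simp only [sz_pair, sz_list_nil, sz_list_cons]
  omega

/-- The test for `K` on the tables. -/
def testK (x : ℕ × (List (List Bool) × List (List ℕ)) × (List (List Bool) × List (List ℕ))) :
    Bool :=
  decide (decide (x.2.1.2.getD 0 [] = x.2.1.2.getD 1 []) =
    decide (x.2.2.2.getD 0 [] = x.2.2.2.getD 1 []))

theorem poly_testK : NPC.Poly testK := by
  unfold testK
  have h1 : NPC.Poly (fun x : ℕ × (List (List Bool) × List (List ℕ)) ×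
      (List (List Bool) × List (List ℕ)) => x.2.1.2) :=
    NPC.Poly.snd (NPC.Poly.fst (NPC.Poly.snd NPC.Poly.id))
  have h2 : NPC.Poly (fun x : ℕ × (List (List Bool) × List (List ℕ)) ×
      (List (List Bool) × List (List ℕ)) => x.2.2.2) :=
    NPC.Poly.snd (NPC.Poly.snd (NPC.Poly.snd NPC.Poly.id))
  exact NPC.Poly.decide_eq
    (NPC.Poly.decide_eq (NPC.Poly.getD h1 (NPC.Poly.const 0) (NPC.Poly.const []))
      (NPC.Poly.getD h1 (NPC.Poly.const 1) (NPC.Poly.const [])))
    (NPC.Poly.decide_eq (NPC.Poly.getD h2 (NPC.Poly.const 0) (NPC.Poly.const []))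
      (NPC.Poly.getD h2 (NPC.Poly.const 1) (NPC.Poly.const [])))

theorem testK_eq (A B : Str sK n) :
    testK (n, A.tables, B.tables) = decide (c0 A = c1 A ↔ c0 B = c1 B) := by
  unfold testK
  rw [tables_K, tables_K]
  simp [Fin.val_inj]

/-- A fast isomorphism testing algorithm for `K`. -/
theorem fast_K : ∃ α : TM2ComputableAux Bool Bool, IsTester phiK α ∧
    ∃ p : Polynomial ℕ, ∀ n, maxSteps phiK α n ≤ p.eval (Nat.log 2 n) := by
  classical
  have h1 : NPC.Poly (fun x : List Bool =>
      match unbits (ℕ × (List (List Bool) × List (List ℕ)) × (List (List Bool) × List (List ℕ))) x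
      with
      | none => false
      | some a => testK a) :=
    (NPC.Poly.optCases (h := fun _ a => testK a) poly_unbits (NPC.Poly.const false)
      (poly_testK.comp (NPC.Poly.snd NPC.Poly.id))).congr fun x => by
        cases unbits (ℕ × (List (List Bool) × List (List ℕ)) ×
          (List (List Bool) × List (List ℕ))) x <;> rfl
  obtain ⟨⟨aux, p, hp⟩⟩ := polyTime_of_poly h1
  have key : ∀ n, TestsWithin phiK aux n (p.eval (20 * (Nat.log 2 n + 1) + 100)) := by
    intro n A B _ _
    have h2 := hp (code A B)
    have h3 : (match unbits (ℕ × (List (List Bool) × List (List ℕ)) ×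
        (List (List Bool) × List (List ℕ))) (code A B)
      with
      | none => false
      | some a => testK a) = decide (A.Iso B) := by
      unfold code
      rw [unbits_bits]
      show testK (n, A.tables, B.tables) = _
      rw [testK_eq]
      rw [decide_eq_decide]
      exact (iso_K_iff' A B).symm
    simp only [h3] at h2
    refine ⟨⟨h2.1, h2.2.trans (eval_mono p ?_)⟩⟩
    show (code A B).length ≤ _
    have h4 := length_code_K A B
    have h5 : n.size ≤ Nat.log 2 n + 1 := by
      rw [Nat.size_le]
      exact Nat.lt_pow_succ_log_self (by norm_num) n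
    omega
  refine ⟨aux, fun n => ⟨_, key n⟩, p.comp (20 * (Polynomial.X + 1) + 100), fun n => ?_⟩
  have h6 := maxSteps_le (key n)
  simpa using h6

theorem not_poly_log (c : ℕ) (p : Polynomial ℕ) (N : ℕ) :
    ∃ n ≥ N, c * (p.eval (Nat.log 2 n) + 1) < n := by
  have h1 : (fun m : ℕ => ((c * (p.eval m + 1) : ℕ) : ℝ)) =o[Filter.atTop]
      (fun m : ℕ => (2 : ℝ) ^ m) := by
    have e : ∀ m : ℕ, ((c * (p.eval m + 1) : ℕ) : ℝ) =
        ∑ i ∈ Finset.range ((Polynomial.C c * (p + 1)).natDegree + 1),
          ((Polynomial.C c * (p + 1)).coeff i : ℝ) * (m : ℝ) ^ i := by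
      intro m
      have e1 : c * (p.eval m + 1) = (Polynomial.C c * (p + 1)).eval m := by simp
      rw [e1, Polynomial.eval_eq_sum_range]
      push_cast
      rfl
    simp_rw [e]
    refine Asymptotics.IsLittleO.fun_sum fun i _ => ?_
    exact (isLittleO_pow_const_const_pow_of_one_lt (R := ℝ) i
      (by norm_num : (1 : ℝ) < 2)).const_mul_left _
  have h2 := h1.def (show (0 : ℝ) < 1 / 2 by norm_num)
  obtain ⟨m, hm, hm'⟩ := (h2.and (Filter.eventually_ge_atTop N)).exists
  refine ⟨2 ^ m, hm'.trans Nat.lt_two_pow_self.le, ?_⟩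
  rw [Nat.log_pow (by norm_num)]
  rw [Real.norm_of_nonneg (by positivity), Real.norm_of_nonneg (by positivity)] at hm
  have h3 : (0 : ℝ) < 2 ^ m := by positivity
  have h4 : ((c * (p.eval m + 1) : ℕ) : ℝ) < ((2 ^ m : ℕ) : ℝ) := by
    push_cast at hm ⊢
    linarith
  exact_mod_cast h4

/-- There are two classes `J`, `K` of finite structures, each defined by a first-order sentence,
which have the same number of isomorphism types of `n`-element members for every `n`, such that some
isomorphism testing algorithm for `K` (which reads its whole input) makes at most `p (log₂ n)` steps,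
for a polynomial `p`, while every isomorphism testing algorithm for `J` makes at least `n / c - 1`
steps, for a constant `c > 0`. So the assertion of Q1 is false. -/
theorem result :
    (∃ (σ τ : Sig) (J : σ.lang.Sentence) (K : τ.lang.Sentence),
      (∀ n, numTypes J n = numTypes K n) ∧
      (∃ α, IsTester K α ∧ ∃ p : Polynomial ℕ, ∀ n, maxSteps K α n ≤ p.eval (Nat.log 2 n)) ∧
      ∀ β, IsTester J β → ∃ c, ∀ n, n ≤ c * (maxSteps J β n + 1)) ∧
    ¬ Assertion := by
  refine ⟨⟨sJ, sK, phiJ, phiK, numTypes_eq, fast_K, slow_J⟩, fun h => ?_⟩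
  obtain ⟨p, hp⟩ := h sJ sK phiJ phiK Polynomial.X (fun n => by
    rw [Polynomial.eval_X, numTypes_eq])
  obtain ⟨α, hα, P, hP⟩ := fast_K
  obtain ⟨β, hβ, N, hN⟩ := hp α hα
  obtain ⟨c, hc⟩ := slow_J β hβ
  obtain ⟨n, hn, hn'⟩ := not_poly_log c (p.comp P) N
  have h1 := hc n
  have h2 := hN n hn
  have h3 := eval_mono p (hP n)
  rw [Polynomial.eval_comp] at hn'
  have h4 : c * (maxSteps phiJ β n + 1) ≤ c * (Polynomial.eval (P.eval (Nat.log 2 n)) p + 1) :=
    Nat.mul_le_mul_left _ (by omega)
  omega

end Pool.Agent.Results.MP_28ce77_lc.TypesDoNotBoundTime
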